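import Mathlib
import Pool.Agent.Helper64.Iso.Defs
import Pool.Agent.Helper64.Iso.Graph

set_option autoImplicit false

namespace Pool.Agent.Results.MP_acbd57_co.Isospectral

open Polynomial Pool.Agent.Helper64.Iso

/-- The two rings of the question have isospectral free-submodule incidence graphs, for every prime
`p`, every `r ≥ 1`, every `d` and all ranks `m < n`. -/
theorem result : ∀ (p : ℕ), p.Prime → ∀ (r d m n : ℕ), 1 ≤ r → m < n →
    Isospectral (incGraph (ZMod (p ^ r)) d m n)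
      (incGraph ((ZMod p)[X] ⧸ Ideal.span {(X : (ZMod p)[X]) ^ r}) d m n) := by
  intro p hp r d m n hr hmn
  have hfact : Fact p.Prime := ⟨hp⟩
  have hp1 : 1 < p := hp.one_lt
  -- first ring
  have hπ : Irreducible (p : ℤ) := (Nat.prime_iff_prime_int.mp hp).irreducible
  have hne : NeZero (p ^ r) := ⟨pow_ne_zero _ hp.ne_zero⟩
  have hf1 : Fact (1 < p ^ r) := ⟨Nat.one_lt_pow (by omega) hp1⟩
  have hs : Function.Surjective (algebraMap ℤ (ZMod (p ^ r))) := by
    intro x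
    obtain ⟨k, hk⟩ := ZMod.intCast_surjective x
    exact ⟨k, by rw [← hk]; simp⟩
  have card1 : ∀ a : ℕ, Nat.card (cyc (p : ℤ) a) = p ^ a := by
    intro a
    have e := (Int.quotientSpanNatEquivZMod (p ^ a)).toEquiv
    have h1 : Nat.card (cyc (p : ℤ) a) = Nat.card (ℤ ⧸ Ideal.span {((p ^ a : ℕ) : ℤ)}) := by
      have : Submodule.span ℤ {(p : ℤ) ^ a} = Ideal.span {((p ^ a : ℕ) : ℤ)} := by
        push_cast; rfl
      unfold cyc
      rw [this]
    rw [h1, Nat.card_congr e, Nat.card_zmod]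
  have eR : Nonempty (ZMod (p ^ r) ≃ₗ[ℤ] cyc (p : ℤ) r) := by
    have h1 : Submodule.span ℤ {(p : ℤ) ^ r} = Ideal.span {((p ^ r : ℕ) : ℤ)} := by
      push_cast; rfl
    have e0 : (ℤ ⧸ Ideal.span {((p ^ r : ℕ) : ℤ)}) ≃ₗ[ℤ] ZMod (p ^ r) :=
      (Int.quotientSpanNatEquivZMod (p ^ r)).toAddEquiv.toIntLinearEquiv
    have e1 : cyc (p : ℤ) r ≃ₗ[ℤ] (ℤ ⧸ Ideal.span {((p ^ r : ℕ) : ℤ)}) :=
      Submodule.quotEquivOfEq _ _ h1
    exact ⟨(e1.trans e0).symm⟩
  -- second ring
  have hπ' : Irreducible (X : (ZMod p)[X]) := irreducible_X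
  have card2 : Nat.card (cyc (X : (ZMod p)[X]) 1) = p := by
    have e := (Polynomial.quotientSpanXSubCAlgEquiv (0 : ZMod p)).toEquiv
    have h1 : Nat.card (cyc (X : (ZMod p)[X]) 1) =
        Nat.card ((ZMod p)[X] ⧸ Ideal.span {(X : (ZMod p)[X]) - C 0}) := by
      have : Submodule.span (ZMod p)[X] {(X : (ZMod p)[X]) ^ 1} =
          Ideal.span {(X : (ZMod p)[X]) - C 0} := by
        simp [Ideal.span]
      unfold cyc
      rw [this]
    rw [h1, Nat.card_congr e, Nat.card_zmod]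
  have card2r : Nat.card (cyc (X : (ZMod p)[X]) r) = p ^ r := by
    rw [card_cyc hπ', card2]
  have hfin : Finite ((ZMod p)[X] ⧸ Ideal.span {(X : (ZMod p)[X]) ^ r}) := by
    apply Nat.finite_of_card_ne_zero
    change Nat.card (cyc (X : (ZMod p)[X]) r) ≠ 0
    rw [card2r]
    exact pow_ne_zero _ hp.ne_zero
  have hnt : Nontrivial ((ZMod p)[X] ⧸ Ideal.span {(X : (ZMod p)[X]) ^ r}) := by
    rw [← Finite.one_lt_card_iff_nontrivial]
    change 1 < Nat.card (cyc (X : (ZMod p)[X]) r)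
    rw [card2r]
    exact Nat.one_lt_pow (by omega) hp1
  have hs' : Function.Surjective (algebraMap (ZMod p)[X]
      ((ZMod p)[X] ⧸ Ideal.span {(X : (ZMod p)[X]) ^ r})) := Ideal.Quotient.mk_surjective
  have hq : Nat.card (cyc (p : ℤ) 1) = Nat.card (cyc (X : (ZMod p)[X]) 1) := by
    rw [card1, card2, pow_one]
  exact general hπ hπ' hq (by rw [card2]; exact hp.ne_zero) r hr hs hs' eR.some
    (LinearEquiv.refl _ _) d m n hmn

end Pool.Agent.Results.MP_acbd57_co.Isospectral
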